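import Mathlib

/-! # Perimeter of unions of four unit disks: definitions

`V4` is four-dimensional Euclidean space, `msq x y` the squared distance of `y` to the set
`{x 0, ..., x 3}` and `En φ x = ∫ φ (msq x y) dy`.  A test function is
`φ m = χ (m - s₂) - χ (m - s₁)` with `s₁ ≤ s₂` and `χ ≥ 0` of class `C¹` with compact support. -/

open MeasureTheory Set Metric Filter Topology

namespace Pool.Agent.Helper36.Disk

/-- Euclidean four-space. -/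
abbrev V4 : Type := EuclideanSpace ℝ (Fin 4)

/-- Squared distance from `y` to the nearest of the four points. -/
noncomputable def msq (x : Fin 4 → V4) (y : V4) : ℝ := ⨅ i, ‖y - x i‖ ^ 2

/-- The energy functional. -/
noncomputable def En (φ : ℝ → ℝ) (x : Fin 4 → V4) : ℝ := ∫ y, φ (msq x y)

/-- Test functions. -/
def IsTest (φ : ℝ → ℝ) : Prop :=
  ∃ (χ : ℝ → ℝ) (s₁ s₂ : ℝ), ContDiff ℝ 1 χ ∧ HasCompactSupport χ ∧ (∀ u, 0 ≤ χ u) ∧ s₁ ≤ s₂ ∧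
    φ = fun m => χ (m - s₂) - χ (m - s₁)

/-- The configuration in which the first point is rotated by the angle `ω` around the line through
the last two points. -/
noncomputable def conf (L a₁ ρ₁ a₂ ρ₂ ω : ℝ) : Fin 4 → V4 :=
  ![!₂[a₁, 0, ρ₁ * Real.cos ω, ρ₁ * Real.sin ω], !₂[a₂, 0, ρ₂, 0], !₂[0, 0, 0, 0], !₂[L, 0, 0, 0]]

/-- The wedge `{(u, v, z) : 2 (u α₃ + v β₃) < α₃² + β₃², 2 (u α₄ + v β₄) < α₄² + β₄²}`. -/
def wedge (α₃ β₃ α₄ β₄ : ℝ) : Set (ℝ × ℝ × ℝ) :=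
  {w | 2 * (w.1 * α₃ + w.2.1 * β₃) < α₃ ^ 2 + β₃ ^ 2 ∧
       2 * (w.1 * α₄ + w.2.1 * β₄) < α₄ ^ 2 + β₄ ^ 2}

/-- Packet W (statement). -/
def StatementW : Prop :=
  ∀ φ : ℝ → ℝ, IsTest φ → ∀ α₃ β₃ α₄ β₄ τ₀ τ₁ τ₂ : ℝ, α₃ * β₄ - α₄ * β₃ ≠ 0 →
    0 ≤ ∫ w in wedge α₃ β₃ α₄ β₄,
      φ (w.1 ^ 2 + w.2.1 ^ 2 + (τ₀ + τ₁ * w.1 + τ₂ * w.2.1) ^ 2 + w.2.2 ^ 2)

/-- Packet SE (statement): moving one point away from another one, with the distances to the other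
two fixed, does not decrease the energy. -/
def StatementSE : Prop :=
  ∀ φ : ℝ → ℝ, IsTest φ → ∀ L a₁ ρ₁ a₂ ρ₂ : ℝ, 0 < L → 0 < ρ₁ → 0 < ρ₂ →
    MonotoneOn (fun ω => En φ (conf L a₁ ρ₁ a₂ ρ₂ ω)) (Icc 0 Real.pi)

/-- Packet M (statement, to be derived from `StatementSE`). -/
def StatementM : Prop :=
  ∀ φ : ℝ → ℝ, IsTest φ → ∀ x x' : Fin 4 → V4, (∀ i j, dist (x' i) (x' j) ≤ dist (x i) (x j)) →
    En φ x' ≤ En φ x

/-- Area of the union of the four closed disks of radius `r`. -/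
noncomputable def ar (p : Fin 4 → ℂ) (r : ℝ) : ℝ := (volume (⋃ i, closedBall (p i) r)).toReal

/-- Packet A (statement, to be derived from `StatementM`). -/
def StatementA : Prop :=
  ∀ p q : Fin 4 → ℂ, (∀ i j, dist (q i) (q j) ≤ dist (p i) (p j)) →
    ∀ r₁ r₂ : ℝ, 0 < r₁ → r₁ < r₂ → ar q r₂ - ar q r₁ ≤ ar p r₂ - ar p r₁

/-- Packet D (statement): the length of the boundary of a finite union of closed unit disks is the
right derivative of the area. -/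
def StatementD : Prop :=
  ∀ S : Finset ℂ, μH[1] (frontier (⋃ p ∈ S, closedBall p (1 : ℝ))) ≠ ⊤ ∧
    Tendsto (fun h : ℝ => ((volume (⋃ p ∈ S, closedBall p (1 + h))).toReal -
        (volume (⋃ p ∈ S, closedBall p (1 : ℝ))).toReal) / h) (𝓝[>] 0)
      (𝓝 (μH[1] (frontier (⋃ p ∈ S, closedBall p (1 : ℝ)))).toReal)

end Pool.Agent.Helper36.Disk
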