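import Pool.Agent.Helper36.Disk.Defs

/-! # Basic properties of the energy functional -/

open MeasureTheory Set Metric Filter Topology

namespace Pool.Agent.Helper36.Disk

lemma IsTest.contDiff {φ : ℝ → ℝ} (h : IsTest φ) : ContDiff ℝ 1 φ := by
  obtain ⟨χ, s₁, s₂, hχ, -, -, -, rfl⟩ := h
  exact (hχ.comp (contDiff_id.sub contDiff_const)).sub (hχ.comp (contDiff_id.sub contDiff_const))

lemma IsTest.continuous {φ : ℝ → ℝ} (h : IsTest φ) : Continuous φ := h.contDiff.continuous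

lemma IsTest.hasCompactSupport {φ : ℝ → ℝ} (h : IsTest φ) : HasCompactSupport φ := by
  obtain ⟨χ, s₁, s₂, -, hχ, -, -, rfl⟩ := h
  have h1 : ∀ s : ℝ, HasCompactSupport (fun m => χ (m - s)) := fun s =>
    hχ.comp_homeomorph (Homeomorph.subRight s)
  exact (h1 s₂).sub (h1 s₁)

/-- a test function vanishes outside a bounded interval -/
lemma IsTest.bound {φ : ℝ → ℝ} (h : IsTest φ) : ∃ M : ℝ, 0 < M ∧ ∀ m, M < m → φ m = 0 := by
  obtain ⟨R, hR⟩ := h.hasCompactSupport.isCompact.isBounded.subset_closedBall (0 : ℝ)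
  refine ⟨max R 1, lt_max_of_lt_right one_pos, fun m hm => ?_⟩
  by_contra hne
  have h1 : m ∈ tsupport φ := subset_tsupport φ hne
  have h2 := hR h1
  rw [mem_closedBall, Real.dist_eq, sub_zero] at h2
  have := le_abs_self m
  have := le_max_left R 1
  linarith

lemma IsTest.bdd {φ : ℝ → ℝ} (h : IsTest φ) : ∃ C : ℝ, 0 ≤ C ∧ ∀ m, |φ m| ≤ C := by
  obtain ⟨C, hC⟩ := h.continuous.bounded_above_of_compact_support h.hasCompactSupport
  exact ⟨C, (norm_nonneg _).trans (hC 0), hC⟩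

lemma IsTest.lip {φ : ℝ → ℝ} (h : IsTest φ) : ∃ K : NNReal, LipschitzWith K φ :=
  ContDiff.lipschitzWith_of_hasCompactSupport h.hasCompactSupport h.contDiff one_ne_zero

lemma msq_le (x : Fin 4 → V4) (y : V4) (i : Fin 4) : msq x y ≤ ‖y - x i‖ ^ 2 :=
  ciInf_le (Finite.bddBelow_range _) i

lemma exists_msq (x : Fin 4 → V4) (y : V4) : ∃ i, msq x y = ‖y - x i‖ ^ 2 := by
  obtain ⟨i, hi⟩ := exists_eq_ciInf_of_finite (f := fun i => ‖y - x i‖ ^ 2)
  exact ⟨i, hi.symm⟩

lemma le_msq {x : Fin 4 → V4} {y : V4} {c : ℝ} (h : ∀ i, c ≤ ‖y - x i‖ ^ 2) : c ≤ msq x y :=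
  le_ciInf h

lemma msq_nonneg (x : Fin 4 → V4) (y : V4) : 0 ≤ msq x y := le_msq fun _ => by positivity

lemma msq_eq (x : Fin 4 → V4) (y : V4) :
    msq x y = min (‖y - x 0‖ ^ 2) (min (‖y - x 1‖ ^ 2) (min (‖y - x 2‖ ^ 2) (‖y - x 3‖ ^ 2))) := by
  apply le_antisymm
  · exact le_min (msq_le x y 0) (le_min (msq_le x y 1) (le_min (msq_le x y 2) (msq_le x y 3)))
  · obtain ⟨i, hi⟩ := exists_msq x y
    rw [hi]
    fin_cases i <;> simp

lemma continuous_msq : Continuous (fun q : (Fin 4 → V4) × V4 => msq q.1 q.2) := by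
  have : (fun q : (Fin 4 → V4) × V4 => msq q.1 q.2) = fun q =>
      min (‖q.2 - q.1 0‖ ^ 2) (min (‖q.2 - q.1 1‖ ^ 2)
        (min (‖q.2 - q.1 2‖ ^ 2) (‖q.2 - q.1 3‖ ^ 2))) := by
    funext q; exact msq_eq _ _
  rw [this]
  fun_prop

lemma continuous_msq_right (x : Fin 4 → V4) : Continuous (fun y => msq x y) := by
  simp_rw [msq_eq]
  fun_prop

lemma continuous_msq_left (y : V4) : Continuous (fun x => msq x y) := by
  simp_rw [msq_eq]
  fun_prop

/-- if the configuration is bounded by `B` and `msq x y ≤ M` then `y` is bounded. -/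
lemma norm_le_of_msq {x : Fin 4 → V4} {y : V4} {B M : ℝ} (hM : 0 ≤ M) (hx : ∀ i, ‖x i‖ ≤ B)
    (h : msq x y ≤ M) : ‖y‖ ≤ B + (M + 1) := by
  obtain ⟨i, hi⟩ := exists_msq x y
  have h1 : ‖y - x i‖ ^ 2 ≤ (M + 1) ^ 2 := by rw [← hi]; nlinarith
  have h2 : ‖y - x i‖ ≤ M + 1 := by
    exact le_of_sq_le_sq h1 (by linarith) 
  calc ‖y‖ = ‖x i + (y - x i)‖ := by congr 1; abel
    _ ≤ ‖x i‖ + ‖y - x i‖ := norm_add_le _ _
    _ ≤ B + (M + 1) := add_le_add (hx i) h2

lemma phi_msq_eq_zero {φ : ℝ → ℝ} {M B : ℝ} (hM : 0 < M) (hφ : ∀ m, M < m → φ m = 0)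
    {x : Fin 4 → V4} (hx : ∀ i, ‖x i‖ ≤ B) {y : V4} (hy : B + (M + 1) < ‖y‖) :
    φ (msq x y) = 0 := by
  apply hφ
  by_contra h
  exact absurd (norm_le_of_msq hM.le hx (not_lt.1 h)) (not_le.2 hy)

lemma IsTest.integrable {φ : ℝ → ℝ} (h : IsTest φ) (x : Fin 4 → V4) :
    Integrable (fun y => φ (msq x y)) := by
  obtain ⟨M, hM, hφ⟩ := h.bound
  apply Continuous.integrable_of_hasCompactSupport
  · exact h.continuous.comp (continuous_msq_right x)
  · obtain ⟨B, hB⟩ : ∃ B : ℝ, ∀ i, ‖x i‖ ≤ B := by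
      refine ⟨∑ i, ‖x i‖, fun i => Finset.single_le_sum (f := fun i => ‖x i‖)
        (fun _ _ => norm_nonneg _) (Finset.mem_univ i)⟩
    refine HasCompactSupport.of_support_subset_isCompact (isCompact_closedBall (0 : V4) (B + (M + 1)))
      fun y hy => ?_
    rw [mem_closedBall, dist_zero_right]
    by_contra hc
    exact hy (phi_msq_eq_zero hM hφ hB (not_le.1 hc))

lemma continuous_En {φ : ℝ → ℝ} (h : IsTest φ) : Continuous (fun x => En φ x) := by
  obtain ⟨M, hM, hφ⟩ := h.bound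
  obtain ⟨C, hC0, hC⟩ := h.bdd
  rw [continuous_iff_continuousAt]
  intro x₀
  obtain ⟨B, hB⟩ : ∃ B : ℝ, ∀ i, ‖x₀ i‖ ≤ B := by
    refine ⟨∑ i, ‖x₀ i‖, fun i => Finset.single_le_sum (f := fun i => ‖x₀ i‖)
      (fun _ _ => norm_nonneg _) (Finset.mem_univ i)⟩
  apply continuousAt_of_dominated
    (bound := (closedBall (0 : V4) (B + 1 + (M + 1))).indicator fun _ => C)
  · exact Eventually.of_forall fun x =>
      (h.continuous.comp (continuous_msq_right x)).aestronglyMeasurable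
  · have : ∀ᶠ x in 𝓝 x₀, ∀ i, ‖x i‖ ≤ B + 1 := by
      filter_upwards [ball_mem_nhds x₀ one_pos] with x hx i
      have h1 : dist (x i) (x₀ i) < 1 := (dist_le_pi_dist x x₀ i).trans_lt hx
      have h2 : ‖x i‖ ≤ ‖x₀ i‖ + ‖x i - x₀ i‖ := by
        calc ‖x i‖ = ‖x₀ i + (x i - x₀ i)‖ := by congr 1; abel
          _ ≤ _ := norm_add_le _ _
      rw [dist_eq_norm] at h1
      linarith [hB i]
    filter_upwards [this] with x hx
    refine Eventually.of_forall fun y => ?_
    by_cases hy : y ∈ closedBall (0 : V4) (B + 1 + (M + 1))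
    · rw [indicator_of_mem hy]; exact hC _
    · rw [indicator_of_notMem hy]
      rw [mem_closedBall, dist_zero_right, not_le] at hy
      rw [phi_msq_eq_zero hM hφ hx hy, norm_zero]
  · exact (integrable_indicator_iff measurableSet_closedBall).2
      (integrableOn_const (measure_closedBall_lt_top.ne) ENNReal.coe_ne_top |>.congr_fun
        (fun _ _ => rfl) measurableSet_closedBall)
  · refine Eventually.of_forall fun y => ?_
    exact (h.continuous.comp (continuous_msq_left y)).continuousAt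

/-- Invariance under linear isometries. -/
lemma En_isometry (φ : ℝ → ℝ) (g : V4 ≃ₗᵢ[ℝ] V4) (x : Fin 4 → V4) :
    En φ (fun i => g (x i)) = En φ x := by
  have h1 : ∀ y, φ (msq (fun i => g (x i)) (g y)) = φ (msq x y) := by
    intro y
    congr 1
    unfold msq
    congr 1
    funext i
    rw [← map_sub, LinearIsometryEquiv.norm_map]
  have h2 := (g.measurePreserving).integral_comp (g.toHomeomorph.measurableEmbedding)
    (fun y => φ (msq (fun i => g (x i)) y))
  unfold En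
  rw [← h2]
  exact integral_congr_ae (Eventually.of_forall h1)

end Pool.Agent.Helper36.Disk
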