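import Pool.Agent.Helper36.Disk.Deriv

/-! # Coordinates in four-space -/

open MeasureTheory Set Metric Filter Topology Real

namespace Pool.Agent.Helper36.Disk

/-- `y ↦ ((y 0, y 2, y 1), y 3)` -/
noncomputable def eV : V4 ≃ᵐ (ℝ × ℝ × ℝ) × ℝ :=
  ((MeasurableEquiv.toLp 2 (Fin 4 → ℝ)).symm).trans
    ((MeasurableEquiv.piFinSuccAbove (fun _ : Fin 4 => ℝ) 3).trans
      ((MeasurableEquiv.prodComm).trans
        (MeasurableEquiv.prodCongr
          ((MeasurableEquiv.piFinSuccAbove (fun _ : Fin 3 => ℝ) 0).trans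
            (MeasurableEquiv.prodCongr (MeasurableEquiv.refl ℝ)
              ((MeasurableEquiv.finTwoArrow).trans MeasurableEquiv.prodComm)))
          (MeasurableEquiv.refl ℝ))))

lemma eV_apply (y : V4) : eV y = ((y 0, y 2, y 1), y 3) := by
  rfl

lemma eV_mp : MeasurePreserving eV (volume : Measure V4) (volume : Measure ((ℝ × ℝ × ℝ) × ℝ)) := by
  have h1 := EuclideanSpace.volume_preserving_symm_measurableEquiv_toLp (Fin 4)
  have h2 := volume_preserving_piFinSuccAbove (fun _ : Fin 4 => ℝ) 3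
  have h3 : MeasurePreserving (MeasurableEquiv.prodComm : ℝ × (Fin 3 → ℝ) ≃ᵐ (Fin 3 → ℝ) × ℝ)
      volume volume := Measure.measurePreserving_swap
  have h4 := volume_preserving_piFinSuccAbove (fun _ : Fin 3 => ℝ) 0
  have h5 := volume_preserving_finTwoArrow ℝ
  have h6 : MeasurePreserving (MeasurableEquiv.prodComm : ℝ × ℝ ≃ᵐ ℝ × ℝ)
      volume volume := Measure.measurePreserving_swap
  have h7 : MeasurePreserving (MeasurableEquiv.refl ℝ) (volume : Measure ℝ) volume :=
    MeasurePreserving.id _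
  exact (((((h7.prod (h6.comp h5)).comp h4).prod h7).comp h3).comp h2).comp h1

lemma eV_symm_apply (w : (ℝ × ℝ × ℝ) × ℝ) : eV.symm w = !₂[w.1.1, w.1.2.2, w.1.2.1, w.2] := by
  rw [MeasurableEquiv.symm_apply_eq, eV_apply]
  simp

lemma integral_V4 (g : V4 → ℝ) :
    ∫ y, g y = ∫ w : (ℝ × ℝ × ℝ) × ℝ, g !₂[w.1.1, w.1.2.2, w.1.2.1, w.2] := by
  have h := (eV_mp.symm eV).integral_comp (eV.symm.measurableEmbedding) g
  rw [← h]
  simp only [eV_symm_apply]

lemma integrable_V4 {g : V4 → ℝ} (hg : Integrable g) :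
    Integrable (fun w : (ℝ × ℝ × ℝ) × ℝ => g !₂[w.1.1, w.1.2.2, w.1.2.1, w.2]) := by
  have h := ((eV_mp.symm eV).integrable_comp_emb (eV.symm.measurableEmbedding)).2 hg
  refine h.congr (Eventually.of_forall fun w => ?_)
  simp only [Function.comp, eV_symm_apply]

end Pool.Agent.Helper36.Disk
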