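import Pool.Agent.Helper36.Disk.SE

/-! # Differentiating the energy along a single-edge move -/

open MeasureTheory Set Metric Filter Topology Real
namespace Pool.Agent.Helper36.Disk

/-- squared distance to the moving point -/
noncomputable def mm (a₁ ρ₁ s : ℝ) (y : V4) : ℝ :=
  (y 0 - a₁) ^ 2 + y 1 ^ 2 + (y 2 - ρ₁ * cos s) ^ 2 + (y 3 - ρ₁ * sin s) ^ 2

/-- minimum of the squared distances to the three fixed points -/
noncomputable def cc (L a₂ b₂ κ : ℝ) (y : V4) : ℝ :=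
  min ((y 0 - a₂) ^ 2 + y 1 ^ 2 + (y 2 - b₂) ^ 2 + (y 3 + κ) ^ 2)
    (min (y 0 ^ 2 + y 1 ^ 2 + y 2 ^ 2 + y 3 ^ 2) ((y 0 - L) ^ 2 + y 1 ^ 2 + y 2 ^ 2 + y 3 ^ 2))

lemma msq_conf2 (L a₁ ρ₁ a₂ b₂ κ s : ℝ) (y : V4) :
    msq (conf2 L a₁ ρ₁ a₂ b₂ κ s) y = min (mm a₁ ρ₁ s y) (cc L a₂ b₂ κ y) := by
  rw [msq_eq, mm, cc]
  simp only [normsq]
  simp [conf2]

lemma continuous_mm (a₁ ρ₁ s : ℝ) : Continuous (mm a₁ ρ₁ s) := by
  unfold mm; fun_prop

lemma continuous_cc (L a₂ b₂ κ : ℝ) : Continuous (cc L a₂ b₂ κ) := by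
  unfold cc; fun_prop

lemma hasDerivAt_mm (a₁ ρ₁ s : ℝ) (y : V4) :
    HasDerivAt (fun s => mm a₁ ρ₁ s y)
      (2 * ρ₁ * (y 2 * sin s - y 3 * cos s)) s := by
  unfold mm
  have hc : HasDerivAt (fun s => (y 2 - ρ₁ * cos s) ^ 2)
      (2 * (y 2 - ρ₁ * cos s) * (ρ₁ * sin s)) s := by
    have h := (((hasDerivAt_cos s).const_mul ρ₁).const_sub (y 2)).pow 2
    refine h.congr_deriv ?_
    simp
  have hs : HasDerivAt (fun s => (y 3 - ρ₁ * sin s) ^ 2)
      (2 * (y 3 - ρ₁ * sin s) * (-(ρ₁ * cos s))) s := by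
    have h := (((hasDerivAt_sin s).const_mul ρ₁).const_sub (y 3)).pow 2
    refine h.congr_deriv ?_
    simp
  have h := ((hc.const_add ((y 0 - a₁) ^ 2 + y 1 ^ 2)).add hs)
  refine h.congr_deriv ?_
  ring

/-- derivative of the integrand at `s = 0` -/
noncomputable def FD (φ : ℝ → ℝ) (L a₁ ρ₁ a₂ b₂ κ : ℝ) (y : V4) : ℝ :=
  if mm a₁ ρ₁ 0 y < cc L a₂ b₂ κ y then deriv φ (mm a₁ ρ₁ 0 y) * (-2 * ρ₁ * y 3) else 0

lemma null_ties {p q : V4} (h : p ≠ q) : volume {y : V4 | ‖y - p‖ ^ 2 = ‖y - q‖ ^ 2} = 0 := by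
  have h1 : {y : V4 | ‖y - p‖ ^ 2 = ‖y - q‖ ^ 2} = (AffineSubspace.perpBisector p q : Set V4) := by
    ext y
    rw [mem_ofPred_eq, SetLike.mem_coe, AffineSubspace.mem_perpBisector_iff_dist_eq, dist_eq_norm,
      dist_eq_norm]
    exact pow_left_inj₀ (norm_nonneg _) (norm_nonneg _) two_ne_zero
  rw [h1]
  apply Measure.addHaar_affineSubspace
  intro h2
  have h3 : p ∈ AffineSubspace.perpBisector p q := by rw [h2]; exact AffineSubspace.mem_top _ _ _
  rw [AffineSubspace.mem_perpBisector_iff_dist_eq, dist_self] at h3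
  exact h (dist_eq_zero.1 h3.symm)

lemma ties (L a₁ ρ₁ a₂ b₂ κ : ℝ) (hρ : 0 < ρ₁) (hκ : 0 < κ) :
    ∀ᵐ y : V4, mm a₁ ρ₁ 0 y ≠ cc L a₂ b₂ κ y := by
  let p : V4 := !₂[a₁, 0, ρ₁, 0]
  let q1 : V4 := !₂[a₂, 0, b₂, -κ]
  let q2 : V4 := !₂[0, 0, 0, 0]
  let q3 : V4 := !₂[L, 0, 0, 0]
  have h1 : p ≠ q1 := by
    intro h
    have := congrFun (congrArg (fun v : V4 => v.ofLp) h) 3
    simp [p, q1] at this
    linarith
  have h2 : p ≠ q2 := by
    intro h
    have := congrFun (congrArg (fun v : V4 => v.ofLp) h) 2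
    simp [p, q2] at this
    linarith
  have h3 : p ≠ q3 := by
    intro h
    have := congrFun (congrArg (fun v : V4 => v.ofLp) h) 2
    simp [p, q3] at this
    linarith
  rw [ae_iff]
  refine measure_mono_null ?_ (measure_union_null (null_ties h1)
    (measure_union_null (null_ties h2) (null_ties h3)))
  intro y hy
  simp only [ne_eq, not_not, mem_ofPred_eq] at hy
  rw [mem_union, mem_union]
  simp only [mem_ofPred_eq, normsq]
  have e0 : mm a₁ ρ₁ 0 y = (y - p) 0 ^ 2 + (y - p) 1 ^ 2 + (y - p) 2 ^ 2 + (y - p) 3 ^ 2 := by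
    simp [mm, p]
  rw [← e0]
  unfold cc at hy
  rcases min_choice ((y 0 - a₂) ^ 2 + y 1 ^ 2 + (y 2 - b₂) ^ 2 + (y 3 + κ) ^ 2)
    (min (y 0 ^ 2 + y 1 ^ 2 + y 2 ^ 2 + y 3 ^ 2) ((y 0 - L) ^ 2 + y 1 ^ 2 + y 2 ^ 2 + y 3 ^ 2))
    with h | h
  · left; rw [hy, h]; simp [q1]
  · right
    rw [h] at hy
    rcases min_choice (y 0 ^ 2 + y 1 ^ 2 + y 2 ^ 2 + y 3 ^ 2)
      ((y 0 - L) ^ 2 + y 1 ^ 2 + y 2 ^ 2 + y 3 ^ 2) with h | h
    · left; rw [hy, h]; simp [q2]
    · right; rw [hy, h]; simp [q3]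


lemma abs_coord_le (y : V4) (i : Fin 4) : |y i| ≤ ‖y‖ := by
  have := EuclideanSpace.norm_eq y
  rw [← Real.norm_eq_abs]
  exact PiLp.norm_apply_le y i

lemma hasDeriv_En {φ : ℝ → ℝ} (h : IsTest φ) (L a₁ ρ₁ a₂ b₂ κ : ℝ) (hρ : 0 < ρ₁) (hκ : 0 < κ) :
    Integrable (FD φ L a₁ ρ₁ a₂ b₂ κ) ∧
      HasDerivAt (fun s => En φ (conf2 L a₁ ρ₁ a₂ b₂ κ s)) (∫ y, FD φ L a₁ ρ₁ a₂ b₂ κ y) 0 := by
  obtain ⟨M, hM, hφ⟩ := h.bound
  obtain ⟨K, hK⟩ := h.lip
  have hcd := h.contDiff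
  have hdiff : Differentiable ℝ φ := hcd.differentiable one_ne_zero
  have hdc : Continuous (deriv φ) := hcd.continuous_deriv le_rfl
  -- a bound for the configuration
  set B : ℝ := |a₁| + |ρ₁| + |ρ₁| + (|a₂| + |b₂| + |κ|) + |L| with hB
  have hBx : ∀ s i, ‖conf2 L a₁ ρ₁ a₂ b₂ κ s i‖ ≤ B := by
    have key : ∀ (v : V4) (r : ℝ), |v 0| + |v 1| + |v 2| + |v 3| ≤ r → ‖v‖ ≤ r := by
      intro v r hr
      have h0 : ‖v‖ ^ 2 ≤ r ^ 2 := by
        rw [normsq]
        have e0 := abs_nonneg (v 0); have e1 := abs_nonneg (v 1)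
        have e2 := abs_nonneg (v 2); have e3 := abs_nonneg (v 3)
        rw [← sq_abs (v 0), ← sq_abs (v 1), ← sq_abs (v 2), ← sq_abs (v 3)]
        calc |v 0| ^ 2 + |v 1| ^ 2 + |v 2| ^ 2 + |v 3| ^ 2 ≤ (|v 0| + |v 1| + |v 2| + |v 3|) ^ 2 := by
              nlinarith [mul_nonneg e0 e1, mul_nonneg e0 e2, mul_nonneg e0 e3, mul_nonneg e1 e2,
                mul_nonneg e1 e3, mul_nonneg e2 e3]
          _ ≤ r ^ 2 := by gcongr
      have hr0 : 0 ≤ r := le_trans (by positivity) hr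
      exact le_of_sq_le_sq h0 hr0
    intro s i
    have e0 := abs_nonneg a₁; have e1 := abs_nonneg ρ₁
    have e2 := abs_nonneg a₂; have e3 := abs_nonneg b₂
    have e4 := abs_nonneg κ; have e5 := abs_nonneg L
    apply key
    fin_cases i
    · have c1 : |ρ₁ * cos s| ≤ |ρ₁| := by
        rw [abs_mul]; exact mul_le_of_le_one_right e1 (abs_cos_le_one s)
      have c2 : |ρ₁ * sin s| ≤ |ρ₁| := by
        rw [abs_mul]; exact mul_le_of_le_one_right e1 (abs_sin_le_one s)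
      rw [abs_mul] at c1 c2
      simp [conf2]
      linarith
    · simp [conf2]; linarith
    · simp [conf2]; positivity
    · simp [conf2]; linarith
  set R : ℝ := B + (M + 1) with hR
  have hB0 : 0 ≤ B := by positivity
  have hR0 : 0 ≤ R := by positivity
  have hmain := hasDerivAt_integral_of_dominated_loc_of_lip (μ := (volume : Measure V4))
    (F := fun s y => φ (msq (conf2 L a₁ ρ₁ a₂ b₂ κ s) y)) (F' := FD φ L a₁ ρ₁ a₂ b₂ κ)
    (x₀ := (0 : ℝ)) (s := univ)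
    (bound := (closedBall (0 : V4) R).indicator fun _ => (K : ℝ) * (4 * |ρ₁| * R)) univ_mem ?_ ?_ ?_ ?_ ?_ ?_
  · exact hmain
  · exact Eventually.of_forall fun s =>
      (h.continuous.comp (continuous_msq_right _)).aestronglyMeasurable
  · exact h.integrable _
  · have h1 : AEStronglyMeasurable (fun y : V4 => deriv φ (mm a₁ ρ₁ 0 y) * (-2 * ρ₁ * y 3)) :=
      (((hdc.comp (continuous_mm a₁ ρ₁ 0)).mul
        (by fun_prop : Continuous fun y : V4 => -2 * ρ₁ * y 3))).aestronglyMeasurable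
    have h2 : MeasurableSet {y : V4 | mm a₁ ρ₁ 0 y < cc L a₂ b₂ κ y} :=
      measurableSet_lt (continuous_mm _ _ _).measurable (continuous_cc _ _ _ _).measurable
    refine (h1.indicator h2).congr (Eventually.of_forall fun y => ?_)
    simp only [FD, indicator, mem_ofPred_eq]
  · refine Eventually.of_forall fun y => ?_
    by_cases hy : y ∈ closedBall (0 : V4) R
    · rw [indicator_of_mem hy]
      rw [mem_closedBall, dist_zero_right] at hy
      have hlip : ∀ s s', |mm a₁ ρ₁ s y - mm a₁ ρ₁ s' y| ≤ (4 * |ρ₁| * R) * |s - s'| := by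
        intro s s'
        have hd : ∀ t, HasDerivAt (fun s => mm a₁ ρ₁ s y)
          (2 * ρ₁ * (y 2 * sin t - y 3 * cos t)) t := fun t => hasDerivAt_mm a₁ ρ₁ t y
        have hb : ∀ t ∈ (univ : Set ℝ), ‖2 * ρ₁ * (y 2 * sin t - y 3 * cos t)‖ ≤ 4 * |ρ₁| * R := by
          intro t _
          rw [Real.norm_eq_abs, abs_mul, abs_mul, abs_two]
          have h1 : |y 2 * sin t - y 3 * cos t| ≤ 2 * R := by
            calc |y 2 * sin t - y 3 * cos t| ≤ |y 2 * sin t| + |y 3 * cos t| := abs_sub _ _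
              _ ≤ R + R := by
                rw [abs_mul, abs_mul]
                have a1 := abs_coord_le y 2
                have a2 := abs_coord_le y 3
                have b1 := abs_sin_le_one t
                have b2 := abs_cos_le_one t
                gcongr
                · calc |y 2| * |sin t| ≤ |y 2| * 1 := by gcongr
                    _ ≤ R := by linarith
                · calc |y 3| * |cos t| ≤ |y 3| * 1 := by gcongr
                    _ ≤ R := by linarith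
              _ = 2 * R := by ring
          calc 2 * |ρ₁| * |y 2 * sin t - y 3 * cos t| ≤ 2 * |ρ₁| * (2 * R) := by gcongr
            _ = 4 * |ρ₁| * R := by ring
        have := convex_univ.norm_image_sub_le_of_norm_hasDerivWithin_le
          (fun t _ => (hd t).hasDerivWithinAt) hb (mem_univ s') (mem_univ s)
        simpa [Real.norm_eq_abs] using this
      apply LipschitzOnWith.of_dist_le_mul
      intro s _ s' _
      simp only [Real.dist_eq]
      rw [Real.coe_nnabs, abs_of_nonneg (by positivity : (0:ℝ) ≤ K * (4 * |ρ₁| * R))]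
      have h1 := hK.dist_le_mul (msq (conf2 L a₁ ρ₁ a₂ b₂ κ s) y) (msq (conf2 L a₁ ρ₁ a₂ b₂ κ s') y)
      rw [Real.dist_eq, Real.dist_eq] at h1
      refine h1.trans ?_
      rw [mul_assoc]
      gcongr
      rw [msq_conf2, msq_conf2]
      exact (abs_min_sub_min_le_max _ _ _ _).trans (by
        rw [sub_self, abs_zero, max_eq_left (abs_nonneg _)]; exact hlip s s')
    · rw [indicator_of_notMem hy]
      rw [mem_closedBall, dist_zero_right, not_le] at hy
      apply LipschitzOnWith.of_dist_le_mul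
      intro s _ s' _
      rw [phi_msq_eq_zero hM hφ (hBx s) hy, phi_msq_eq_zero hM hφ (hBx s') hy]
      simp
  · exact (integrable_indicator_iff measurableSet_closedBall).2
      (integrableOn_const (measure_closedBall_lt_top.ne) ENNReal.coe_ne_top |>.congr_fun
        (fun _ _ => rfl) measurableSet_closedBall)
  · filter_upwards [ties L a₁ ρ₁ a₂ b₂ κ hρ hκ] with y hy
    have hmm : HasDerivAt (fun s => mm a₁ ρ₁ s y) (-2 * ρ₁ * y 3) 0 := by
      refine (hasDerivAt_mm a₁ ρ₁ 0 y).congr_deriv ?_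
      simp
    have hcont : Continuous (fun s => mm a₁ ρ₁ s y) := by unfold mm; fun_prop
    rcases lt_or_gt_of_ne hy with hlt | hgt
    · have h1 : HasDerivAt (fun s => φ (mm a₁ ρ₁ s y))
        (deriv φ (mm a₁ ρ₁ 0 y) * (-2 * ρ₁ * y 3)) 0 :=
        (hdiff (mm a₁ ρ₁ 0 y)).hasDerivAt.comp 0 hmm
      have h2 : FD φ L a₁ ρ₁ a₂ b₂ κ y = deriv φ (mm a₁ ρ₁ 0 y) * (-2 * ρ₁ * y 3) := if_pos hlt
      rw [h2]
      refine h1.congr_of_eventuallyEq ?_
      have : ∀ᶠ s in 𝓝 (0:ℝ), mm a₁ ρ₁ s y < cc L a₂ b₂ κ y :=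
        (hcont.tendsto 0).eventually_lt_const hlt
      filter_upwards [this] with s hs
      rw [msq_conf2, min_eq_left hs.le]
    · have h2 : FD φ L a₁ ρ₁ a₂ b₂ κ y = 0 := if_neg (not_lt.2 hgt.le)
      rw [h2]
      refine (hasDerivAt_const (0:ℝ) (φ (cc L a₂ b₂ κ y))).congr_of_eventuallyEq ?_
      have : ∀ᶠ s in 𝓝 (0:ℝ), cc L a₂ b₂ κ y < mm a₁ ρ₁ s y :=
        (hcont.tendsto 0).eventually_const_lt hgt
      filter_upwards [this] with s hs
      rw [msq_conf2, min_eq_right hs.le]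

end Pool.Agent.Helper36.Disk
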