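import Pool.Agent.Helper36.Disk.Single
import Pool.Agent.Helper96.Disk.W
import Pool.Agent.Helper40.Disk.PacketD
import Pool.Agent.Helper33.Disk.PacketA

/-! # Property `(P_4)` in the complex plane, from `StatementM` -/

open MeasureTheory Set Metric Filter Topology Real
open scoped ENNReal

namespace Pool.Agent.Helper36.Disk

theorem se : StatementSE := statementSE Pool.Agent.Helper96.Disk.statementW

lemma biUnion_image (p : Fin 4 → ℂ) (r : ℝ) :
    (⋃ c ∈ Finset.univ.image p, closedBall c r) = ⋃ i, closedBall (p i) r := by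
  ext z
  simp

theorem P4_of_M (hM : StatementM) (p q : Fin 4 → ℂ)
    (h : ∀ i j, dist (q i) (q j) ≤ dist (p i) (p j)) :
    μH[1] (frontier (⋃ i, closedBall (q i) (1 : ℝ))) ≤
      μH[1] (frontier (⋃ i, closedBall (p i) (1 : ℝ))) := by
  classical
  have hA := Pool.Agent.Helper33.Disk.statementA hM p q h
  obtain ⟨hp1, hp2⟩ := Pool.Agent.Helper40.Disk.statementD (Finset.univ.image p)
  obtain ⟨hq1, hq2⟩ := Pool.Agent.Helper40.Disk.statementD (Finset.univ.image q)
  simp only [biUnion_image] at hp1 hp2 hq1 hq2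
  rw [← ENNReal.toReal_le_toReal hq1 hp1]
  refine le_of_tendsto_of_tendsto hq2 hp2 ?_
  filter_upwards [self_mem_nhdsWithin] with t ht
  have ht0 : 0 < t := ht
  have h1 := hA 1 (1 + t) one_pos (by linarith)
  unfold ar at h1
  gcongr

end Pool.Agent.Helper36.Disk
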