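import Pool.Agent.Helper36.Disk.Basic

/-! # The single-edge derivative -/

open MeasureTheory Set Metric Filter Topology Real

namespace Pool.Agent.Helper36.Disk

lemma normsq (y : V4) : ‖y‖ ^ 2 = y 0 ^ 2 + y 1 ^ 2 + y 2 ^ 2 + y 3 ^ 2 := by
  rw [EuclideanSpace.norm_sq_eq, Fin.sum_univ_four]
  simp [sq_abs]

/-- rotation in the last two coordinates -/
noncomputable def rotL (θ : ℝ) : V4 →ₗ[ℝ] V4 where
  toFun y := !₂[y 0, y 1, cos θ * y 2 - sin θ * y 3, sin θ * y 2 + cos θ * y 3]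
  map_add' y z := by
    ext i; fin_cases i <;> simp <;> ring
  map_smul' c y := by
    ext i; fin_cases i <;> simp <;> ring

lemma rotL_norm (θ : ℝ) (y : V4) : ‖rotL θ y‖ = ‖y‖ := by
  have h : ‖rotL θ y‖ ^ 2 = ‖y‖ ^ 2 := by
    rw [normsq, normsq]
    have h1 := cos_sq_add_sin_sq θ
    simp only [rotL, LinearMap.coe_mk, AddHom.coe_mk]
    simp
    nlinarith [h1]
  exact (pow_left_inj₀ (norm_nonneg _) (norm_nonneg _) two_ne_zero).1 h

noncomputable def rot (θ : ℝ) : V4 ≃ₗᵢ[ℝ] V4 :=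
  LinearIsometry.toLinearIsometryEquiv ⟨rotL θ, rotL_norm θ⟩ rfl

lemma rot_apply (θ : ℝ) (y : V4) : rot θ y =
    !₂[y 0, y 1, cos θ * y 2 - sin θ * y 3, sin θ * y 2 + cos θ * y 3] := rfl

/-- the rotated configuration -/
noncomputable def conf2 (L a₁ ρ₁ a₂ b₂ κ s : ℝ) : Fin 4 → V4 :=
  ![!₂[a₁, 0, ρ₁ * cos s, ρ₁ * sin s], !₂[a₂, 0, b₂, -κ], !₂[0, 0, 0, 0], !₂[L, 0, 0, 0]]

lemma En_conf (φ : ℝ → ℝ) (L a₁ ρ₁ a₂ ρ₂ ω s : ℝ) :
    En φ (conf L a₁ ρ₁ a₂ ρ₂ (ω + s)) =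
      En φ (conf2 L a₁ ρ₁ a₂ (ρ₂ * cos ω) (ρ₂ * sin ω) s) := by
  rw [← En_isometry φ (rot (-ω))]
  congr 1
  funext i
  have h1 := cos_sq_add_sin_sq ω
  fin_cases i
  · ext j; fin_cases j <;> simp [conf, conf2, rot_apply, cos_add, sin_add]
    · linear_combination (ρ₁ * cos s) * h1
    · linear_combination (ρ₁ * sin s) * h1
  · ext j; fin_cases j <;> simp [conf, conf2, rot_apply]
    · ring
    · ring
  · ext j; fin_cases j <;> simp [conf, conf2, rot_apply]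
  · ext j; fin_cases j <;> simp [conf, conf2, rot_apply]

end Pool.Agent.Helper36.Disk
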