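import Pool.Agent.Helper36.Disk.Coord

/-! # The derivative of the energy along a single-edge move is nonnegative -/

open MeasureTheory Set Metric Filter Topology Real

namespace Pool.Agent.Helper36.Disk

lemma inner_integral {φ : ℝ → ℝ} (h : IsTest φ) (ρ N T : ℝ) :
    ∫ t in Ioi T, deriv φ (N + t ^ 2) * (-2 * ρ * t) = ρ * φ (N + T ^ 2) := by
  obtain ⟨M, hM, hφ⟩ := h.bound
  have hcd := h.contDiff
  have hdiff : Differentiable ℝ φ := hcd.differentiable one_ne_zero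
  have hf : ContDiff ℝ 1 (fun t : ℝ => φ (N + t ^ 2)) :=
    hcd.comp (contDiff_const.add (contDiff_id.pow 2))
  have hs : HasCompactSupport (fun t : ℝ => φ (N + t ^ 2)) := by
    refine HasCompactSupport.of_support_subset_isCompact
      (isCompact_closedBall (0 : ℝ) (|M - N| + 1)) fun t ht => ?_
    rw [mem_closedBall, dist_zero_right, Real.norm_eq_abs]
    by_contra hc
    rw [not_le] at hc
    apply ht
    apply hφ
    have h1 : (|M - N| + 1) ^ 2 < t ^ 2 := by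
      rw [← sq_abs t]; exact pow_lt_pow_left₀ hc (by positivity) two_ne_zero
    have h2 : |M - N| ≤ (|M - N| + 1) ^ 2 := by nlinarith [abs_nonneg (M - N)]
    have h3 := le_abs_self (M - N)
    linarith
  have h1 := hs.integral_Ioi_deriv_eq hf T
  have h2 : ∀ t, deriv φ (N + t ^ 2) * (-2 * ρ * t) =
      (-ρ) * deriv (fun t : ℝ => φ (N + t ^ 2)) t := by
    intro t
    have : HasDerivAt (fun t : ℝ => φ (N + t ^ 2)) (deriv φ (N + t ^ 2) * (2 * t)) t := by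
      have h4 : HasDerivAt (fun t : ℝ => N + t ^ 2) (2 * t) t := by
        simpa using (hasDerivAt_pow 2 t).const_add N
      exact (hdiff (N + t ^ 2)).hasDerivAt.comp t h4
    rw [this.deriv]; ring
  simp_rw [h2]
  rw [integral_const_mul, h1]
  ring

lemma FD_nonneg (hW : StatementW) {φ : ℝ → ℝ} (h : IsTest φ) (L a₁ ρ₁ a₂ b₂ κ : ℝ)
    (hL : 0 < L) (hρ : 0 < ρ₁) (hκ : 0 < κ) : 0 ≤ ∫ y, FD φ L a₁ ρ₁ a₂ b₂ κ y := by
  obtain ⟨hint, -⟩ := hasDeriv_En h L a₁ ρ₁ a₂ b₂ κ hρ hκ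
  let p : V4 := !₂[a₁, 0, ρ₁, 0]
  rw [← integral_add_right_eq_self (μ := (volume : Measure V4)) (FD φ L a₁ ρ₁ a₂ b₂ κ) p,
    integral_V4]
  have hint2 := integrable_V4 (hint.comp_add_right p)
  have hprod := MeasureTheory.integral_prod (μ := (volume : Measure (ℝ × ℝ × ℝ)))
    (ν := (volume : Measure ℝ)) _ hint2
  rw [show (volume : Measure ((ℝ × ℝ × ℝ) × ℝ)) = (volume : Measure (ℝ × ℝ × ℝ)).prod volume from rfl,
    hprod]
  set τ₀ : ℝ := -((a₁ - a₂) ^ 2 + (ρ₁ - b₂) ^ 2 + κ ^ 2) / (2 * κ) with hτ0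
  set τ₁ : ℝ := -(a₁ - a₂) / κ with hτ1
  set τ₂ : ℝ := -(ρ₁ - b₂) / κ with hτ2
  have key : ∀ w : ℝ × ℝ × ℝ, ∫ t, FD φ L a₁ ρ₁ a₂ b₂ κ (!₂[w.1, w.2.2, w.2.1, t] + p) =
      (wedge (-a₁) (-ρ₁) (L - a₁) (-ρ₁)).indicator
        (fun w => ρ₁ * φ (w.1 ^ 2 + w.2.1 ^ 2 + (τ₀ + τ₁ * w.1 + τ₂ * w.2.1) ^ 2 + w.2.2 ^ 2)) w := by
    rintro ⟨u, v, z⟩
    have e1 : ∀ t, mm a₁ ρ₁ 0 (!₂[u, z, v, t] + p) = (u ^ 2 + z ^ 2 + v ^ 2) + t ^ 2 := by
      intro t; simp [mm, p]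
    have e2 : ∀ t, cc L a₂ b₂ κ (!₂[u, z, v, t] + p) =
        min ((u + a₁ - a₂) ^ 2 + z ^ 2 + (v + ρ₁ - b₂) ^ 2 + (t + κ) ^ 2)
          (min ((u + a₁) ^ 2 + z ^ 2 + (v + ρ₁) ^ 2 + t ^ 2)
            ((u + a₁ - L) ^ 2 + z ^ 2 + (v + ρ₁) ^ 2 + t ^ 2)) := by
      intro t; simp [cc, p]
    have e3 : ∀ t, mm a₁ ρ₁ 0 (!₂[u, z, v, t] + p) < cc L a₂ b₂ κ (!₂[u, z, v, t] + p) ↔
        t ∈ Ioi (τ₀ + τ₁ * u + τ₂ * v) ∧ (u, v, z) ∈ wedge (-a₁) (-ρ₁) (L - a₁) (-ρ₁) := by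
      intro t
      rw [e1, e2, lt_min_iff, lt_min_iff, mem_Ioi]
      have eT : τ₀ + τ₁ * u + τ₂ * v =
        -((a₁ - a₂) ^ 2 + (ρ₁ - b₂) ^ 2 + κ ^ 2 + 2 * (a₁ - a₂) * u + 2 * (ρ₁ - b₂) * v) / (2 * κ) := by
        rw [hτ0, hτ1, hτ2]; field_simp; ring
      have f1 : u ^ 2 + z ^ 2 + v ^ 2 + t ^ 2 <
          (u + a₁ - a₂) ^ 2 + z ^ 2 + (v + ρ₁ - b₂) ^ 2 + (t + κ) ^ 2 ↔
          τ₀ + τ₁ * u + τ₂ * v < t := by
        rw [eT, div_lt_iff₀ (by positivity)]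
        constructor <;> intro h1 <;> nlinarith
      have f2 : u ^ 2 + z ^ 2 + v ^ 2 + t ^ 2 < (u + a₁) ^ 2 + z ^ 2 + (v + ρ₁) ^ 2 + t ^ 2 ↔
          2 * (u * (-a₁) + v * (-ρ₁)) < (-a₁) ^ 2 + (-ρ₁) ^ 2 := by
        constructor <;> intro h1 <;> nlinarith
      have f3 : u ^ 2 + z ^ 2 + v ^ 2 + t ^ 2 < (u + a₁ - L) ^ 2 + z ^ 2 + (v + ρ₁) ^ 2 + t ^ 2 ↔
          2 * (u * (L - a₁) + v * (-ρ₁)) < (L - a₁) ^ 2 + (-ρ₁) ^ 2 := by
        constructor <;> intro h1 <;> nlinarith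
      rw [f1, f2, f3]
      simp only [wedge, mem_ofPred_eq]
    by_cases hw : (u, v, z) ∈ wedge (-a₁) (-ρ₁) (L - a₁) (-ρ₁)
    · rw [indicator_of_mem hw]
      have e4 : ∀ t, FD φ L a₁ ρ₁ a₂ b₂ κ (!₂[u, z, v, t] + p) =
          (Ioi (τ₀ + τ₁ * u + τ₂ * v)).indicator
            (fun t => deriv φ ((u ^ 2 + z ^ 2 + v ^ 2) + t ^ 2) * (-2 * ρ₁ * t)) t := by
        intro t
        by_cases ht : t ∈ Ioi (τ₀ + τ₁ * u + τ₂ * v)
        · rw [indicator_of_mem ht, FD, if_pos ((e3 t).2 ⟨ht, hw⟩), e1]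
          simp [p]
        · rw [indicator_of_notMem ht, FD, if_neg (fun hc => ht ((e3 t).1 hc).1)]
      simp only [e4]
      rw [integral_indicator measurableSet_Ioi, inner_integral h]
      congr 2
      ring
    · rw [indicator_of_notMem hw]
      have e4 : ∀ t, FD φ L a₁ ρ₁ a₂ b₂ κ (!₂[u, z, v, t] + p) = 0 := by
        intro t
        rw [FD, if_neg (fun hc => hw ((e3 t).1 hc).2)]
      simp [e4]
  simp_rw [key]
  have hmeas : MeasurableSet (wedge (-a₁) (-ρ₁) (L - a₁) (-ρ₁)) := by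
    have m1 : ∀ α β : ℝ, MeasurableSet {w : ℝ × ℝ × ℝ | 2 * (w.1 * α + w.2.1 * β) < α ^ 2 + β ^ 2} :=
      fun α β => measurableSet_lt (by fun_prop) (by fun_prop)
    exact (m1 _ _).inter (m1 _ _)
  rw [integral_indicator hmeas, integral_const_mul]
  refine mul_nonneg hρ.le (hW φ h _ _ _ _ τ₀ τ₁ τ₂ ?_)
  have : -a₁ * -ρ₁ - (L - a₁) * -ρ₁ = L * ρ₁ := by ring
  rw [this]
  positivity

theorem statementSE (hW : StatementW) : StatementSE := by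
  intro φ h L a₁ ρ₁ a₂ ρ₂ hL hρ₁ hρ₂
  have hder : ∀ ω ∈ Ioo 0 π, ∃ D, 0 ≤ D ∧
      HasDerivAt (fun ω => En φ (conf L a₁ ρ₁ a₂ ρ₂ ω)) D ω := by
    intro ω hω
    have hs : 0 < ρ₂ * sin ω := mul_pos hρ₂ (sin_pos_of_mem_Ioo hω)
    obtain ⟨-, hd⟩ := hasDeriv_En h L a₁ ρ₁ a₂ (ρ₂ * cos ω) (ρ₂ * sin ω) hρ₁ hs
    refine ⟨_, FD_nonneg hW h L a₁ ρ₁ a₂ (ρ₂ * cos ω) (ρ₂ * sin ω) hL hρ₁ hs, ?_⟩
    have h1 : (fun w => En φ (conf L a₁ ρ₁ a₂ ρ₂ w)) =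
        fun w => (fun s => En φ (conf2 L a₁ ρ₁ a₂ (ρ₂ * cos ω) (ρ₂ * sin ω) s)) (w - ω) := by
      funext w
      simp only
      rw [← En_conf]
      congr 2
      ring
    rw [h1]
    have h2 : HasDerivAt (fun w : ℝ => w - ω) 1 ω := by
      simpa using (hasDerivAt_id ω).sub_const ω
    have h3 := HasDerivAt.comp ω (by simpa using hd) h2
    rw [mul_one] at h3
    exact h3
  apply monotoneOn_of_deriv_nonneg (convex_Icc 0 π)
  · apply Continuous.continuousOn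
    apply (continuous_En h).comp
    apply continuous_pi
    intro i
    fin_cases i
    · show Continuous fun ω : ℝ => (!₂[a₁, 0, ρ₁ * cos ω, ρ₁ * sin ω] : V4)
      apply Continuous.comp (PiLp.continuous_toLp 2 _)
      apply continuous_pi
      intro j
      fin_cases j <;> simp <;> fun_prop
    · exact continuous_const
    · exact continuous_const
    · exact continuous_const
  · intro ω hω
    rw [interior_Icc] at hω
    obtain ⟨D, -, hD⟩ := hder ω hω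
    exact hD.differentiableAt.differentiableWithinAt
  · intro ω hω
    rw [interior_Icc] at hω
    obtain ⟨D, hD0, hD⟩ := hder ω hω
    rw [hD.deriv]
    exact hD0

end Pool.Agent.Helper36.Disk
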